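import Pool.Agent.H14.MS.PShift
import Pool.Agent.H14.VC.Win

/-!
# `2 m` almost primes between consecutive odd squares, at the differences of sets with `M ^ (1 - κ)` elements
-/

set_option autoImplicit false

namespace Pool.Agent.Results.MP_5f6ee5_nt.DifferenceSets

open Finset
open Pool.Agent.H14.MS Pool.Agent.H14.SK

/-- all prime factors of the integer `q` are larger than `y` and there are at most `r` of them, counted
with multiplicity -/
def AlmostPrime (y : ℝ) (r : ℕ) (q : ℤ) : Prop :=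
  (∀ p : ℕ, p.Prime → (p : ℤ) ∣ q → y < p) ∧ ArithmeticFunction.cardFactors q.natAbs ≤ r

/-- the `2 m` numbers `(2 k - 1) ^ 2 + t + j (2 m)!` and `(2 k + 1) ^ 2 - t - j (2 m)!`, `j < m`, are almost
primes, the first `m` in the left half and the others in the right half of the interval between the two
squares -/
def Good (y : ℝ) (r m k : ℕ) (t : ℤ) : Prop :=
  ∀ j : ℕ, j < m →
    ((2 * (k : ℤ) - 1) ^ 2 < (2 * (k : ℤ) - 1) ^ 2 + (t + j * (2 * m).factorial) ∧
      (2 * (k : ℤ) - 1) ^ 2 + (t + j * (2 * m).factorial) ≤ (2 * (k : ℤ)) ^ 2 ∧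
      AlmostPrime y r ((2 * (k : ℤ) - 1) ^ 2 + (t + j * (2 * m).factorial))) ∧
    ((2 * (k : ℤ)) ^ 2 < (2 * (k : ℤ) + 1) ^ 2 - (t + j * (2 * m).factorial) ∧
      (2 * (k : ℤ) + 1) ^ 2 - (t + j * (2 * m).factorial) < (2 * (k : ℤ) + 1) ^ 2 ∧
      AlmostPrime y r ((2 * (k : ℤ) + 1) ^ 2 - (t + j * (2 * m).factorial)))

/-- the sieve condition -/
def Bad (m : ℕ) (a b : ℤ) (p : ℕ) (n : ℤ) : Prop :=
  ∃ j : ℕ, j < m ∧ ((p : ℤ) ∣ a + (n + j * (2 * m).factorial) ∨ (p : ℤ) ∣ b - (n + j * (2 * m).factorial))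

lemma bad_per (m : ℕ) (a b : ℤ) :
    ∀ p : ℕ, ∀ n n' : ℤ, (p : ℤ) ∣ n - n' → (Bad m a b p n ↔ Bad m a b p n') := by
  intro p n n' h
  unfold Bad
  apply exists_congr
  intro j
  have e1 : (p : ℤ) ∣ a + (n + j * (2 * m).factorial) ↔ (p : ℤ) ∣ a + (n' + j * (2 * m).factorial) := by
    have e : a + (n + j * (2 * m).factorial) = (a + (n' + j * (2 * m).factorial)) + (n - n') := by ring
    rw [e]
    exact dvd_add_left h
  have e2 : (p : ℤ) ∣ b - (n + j * (2 * m).factorial) ↔ (p : ℤ) ∣ b - (n' + j * (2 * m).factorial) := by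
    have e : b - (n + j * (2 * m).factorial) = (b - (n' + j * (2 * m).factorial)) - (n - n') := by ring
    rw [e]
    exact dvd_sub_left h
  rw [e1, e2]

open Classical in
lemma res_sub (p : ℕ) (c : ℤ) :
    ((range p).filter (fun r : ℕ => (p : ℤ) ∣ c - (r : ℤ))).card ≤ 1 := by
  refine le_trans (card_le_card ?_) (one_res p (-c))
  intro x hx
  rw [mem_filter] at hx ⊢
  refine ⟨hx.1, ?_⟩
  have := dvd_neg.2 hx.2
  have e : -(c - (x : ℤ)) = x + -c := by ring
  rwa [e] at this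

open Classical in
lemma bad_rho (m : ℕ) (a b : ℤ) (p : ℕ) : rho (Bad m a b) p ≤ 2 * m := by
  have h1 : (range p).filter (fun r : ℕ => Bad m a b p r) ⊆
      (range m).biUnion (fun j => (range p).filter (fun r : ℕ => (p : ℤ) ∣ (r : ℤ) + (a + j * (2 * m).factorial)) ∪
        (range p).filter (fun r : ℕ => (p : ℤ) ∣ (b - j * (2 * m).factorial) - (r : ℤ))) := by
    intro r hr
    obtain ⟨h2, j, hj, h3⟩ := mem_filter.1 hr
    rw [mem_biUnion]
    refine ⟨j, mem_range.2 hj, ?_⟩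
    rw [mem_union, mem_filter, mem_filter]
    rcases h3 with h3 | h3
    · left
      refine ⟨h2, ?_⟩
      have e : a + ((r : ℤ) + j * (2 * m).factorial) = (r : ℤ) + (a + j * (2 * m).factorial) := by ring
      rwa [e] at h3
    · right
      refine ⟨h2, ?_⟩
      have e : b - ((r : ℤ) + j * (2 * m).factorial) = (b - j * (2 * m).factorial) - (r : ℤ) := by ring
      rwa [e] at h3
  unfold rho
  refine (card_le_card h1).trans (card_biUnion_le.trans ?_)
  calc ∑ j ∈ range m, ((range p).filter (fun r : ℕ => (p : ℤ) ∣ (r : ℤ) + (a + j * (2 * m).factorial)) ∪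
        (range p).filter (fun r : ℕ => (p : ℤ) ∣ (b - j * (2 * m).factorial) - (r : ℤ))).card
      ≤ ∑ _j ∈ range m, 2 := by
        apply sum_le_sum
        intro j _
        have q1 := one_res p (a + j * (2 * m).factorial)
        have q2 := res_sub p (b - j * (2 * m).factorial)
        exact (card_union_le _ _).trans (by omega)
    _ = 2 * m := by simp [mul_comm]

open Classical in
lemma bad_rho_small (m : ℕ) (a b : ℤ) (p : ℕ) (hp : p.Prime) (hpm : p ≤ 2 * m) : rho (Bad m a b) p ≤ 2 := by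
  have hd : (p : ℤ) ∣ ((2 * m).factorial : ℤ) := by
    exact_mod_cast (Nat.Prime.dvd_factorial hp).2 hpm
  have h1 : (range p).filter (fun r : ℕ => Bad m a b p r) ⊆
      (range p).filter (fun r : ℕ => (p : ℤ) ∣ (r : ℤ) + a) ∪
        (range p).filter (fun r : ℕ => (p : ℤ) ∣ b - (r : ℤ)) := by
    intro r hr
    obtain ⟨h2, j, hj, h3⟩ := mem_filter.1 hr
    have hd' : (p : ℤ) ∣ (j : ℤ) * ((2 * m).factorial : ℤ) := hd.mul_left _
    rw [mem_union, mem_filter, mem_filter]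
    rcases h3 with h3 | h3
    · left
      refine ⟨h2, ?_⟩
      have e : a + ((r : ℤ) + j * (2 * m).factorial) = ((r : ℤ) + a) + j * (2 * m).factorial := by ring
      rw [e] at h3
      exact (dvd_add_left hd').1 h3
    · right
      refine ⟨h2, ?_⟩
      have e : b - ((r : ℤ) + j * (2 * m).factorial) = (b - (r : ℤ)) - j * (2 * m).factorial := by ring
      rw [e] at h3
      exact (dvd_sub_left hd').1 h3
  unfold rho
  refine (card_le_card h1).trans ((card_union_le _ _).trans ?_)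
  have q1 := one_res p a
  have q2 := res_sub p b
  omega

open Classical in
lemma exists_of_rho (T : ℕ → ℤ → Prop) (p : ℕ) (h : rho T p < p) : ∃ n : ℤ, ¬ T p n := by
  by_contra hcon
  push Not at hcon
  have : rho T p = p := by
    unfold rho
    have h1 : (range p).filter (fun r : ℕ => T p r) = range p := filter_true_of_mem (fun x _ => hcon x)
    rw [h1, card_range]
  omega

lemma bad_adm (m k u : ℕ) (p : ℕ) (hp : p.Prime) :
    ∃ n : ℤ, ¬ Bad m ((2 * (k : ℤ) - 1) ^ 2 + u) ((2 * (k : ℤ) + 1) ^ 2 - u) p n := by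
  classical
  by_cases hpm : p ≤ 2 * m
  · by_cases hp2 : p = 2
    · subst hp2
      refine ⟨u, ?_⟩
      rintro ⟨j, hj, h⟩
      have hd : ((2 : ℕ) : ℤ) ∣ ((2 * m).factorial : ℤ) := by
        exact_mod_cast (Nat.Prime.dvd_factorial Nat.prime_two).2 hpm
      obtain ⟨c, hc⟩ := hd
      rw [hc] at h
      push_cast at h
      rcases h with h | h
      · obtain ⟨e, he⟩ := h
        have h5 : (2 * (k : ℤ) - 1) ^ 2 = 2 * (2 * (k : ℤ) ^ 2 - 2 * k) + 1 := by ring
        rw [h5] at he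
        have h6 : (1 : ℤ) = 2 * (e - (2 * (k : ℤ) ^ 2 - 2 * k) - u - j * c) := by linear_combination he
        omega
      · obtain ⟨e, he⟩ := h
        have h5 : (2 * (k : ℤ) + 1) ^ 2 = 2 * (2 * (k : ℤ) ^ 2 + 2 * k) + 1 := by ring
        rw [h5] at he
        have h6 : (1 : ℤ) = 2 * (e - (2 * (k : ℤ) ^ 2 + 2 * k) + u + j * c) := by linear_combination he
        omega
    · apply exists_of_rho
      have h1 := bad_rho_small m ((2 * (k : ℤ) - 1) ^ 2 + u) ((2 * (k : ℤ) + 1) ^ 2 - u) p hp hpm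
      have := hp.two_le
      omega
  · apply exists_of_rho
    have h1 := bad_rho m ((2 * (k : ℤ) - 1) ^ 2 + u) ((2 * (k : ℤ) + 1) ^ 2 - u) p
    omega

/-- the forms -/
def fa (m : ℕ) : Fin (2 * m) → ℤ := fun i => if (i : ℕ) < m then 1 else -1

/-- the constant terms -/
def fb (m k u : ℕ) : Fin (2 * m) → ℤ := fun i =>
  if (i : ℕ) < m then (2 * (k : ℤ) - 1) ^ 2 + u + (i : ℕ) * (2 * m).factorial
  else (2 * (k : ℤ) + 1) ^ 2 - u - ((i : ℕ) - m : ℕ) * (2 * m).factorial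

lemma f_adm (m k u : ℕ) (p : ℕ) (hp : p.Prime) :
    ∃ n : ℤ, ∀ i, ¬ (p : ℤ) ∣ fa m i * n + fb m k u i := by
  obtain ⟨n, hn⟩ := bad_adm m k u p hp
  refine ⟨n, ?_⟩
  intro i hi
  apply hn
  unfold fa fb at hi
  by_cases him : (i : ℕ) < m
  · rw [if_pos him, if_pos him] at hi
    refine ⟨i, him, Or.inl ?_⟩
    have e : (2 * (k : ℤ) - 1) ^ 2 + u + (n + (i : ℕ) * (2 * m).factorial) =
        1 * n + ((2 * (k : ℤ) - 1) ^ 2 + u + (i : ℕ) * (2 * m).factorial) := by ring
    rwa [e]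
  · rw [if_neg him, if_neg him] at hi
    refine ⟨(i : ℕ) - m, by have := i.2; omega, Or.inr ?_⟩
    have e : (2 * (k : ℤ) + 1) ^ 2 - u - (n + ((i : ℕ) - m : ℕ) * (2 * m).factorial) =
        -1 * n + ((2 * (k : ℤ) + 1) ^ 2 - u - ((i : ℕ) - m : ℕ) * (2 * m).factorial) := by ring
    rwa [e]

open Classical in
/-- **Almost primes between consecutive odd squares and differences of arbitrary sets, power saving.** -/
theorem result (m : ℕ) (θ η : ℝ) (hθ : 0 < θ) (hη : 0 < η) (hη1 : η < 1) : ∃ (κ : ℝ) (r : ℕ), 0 < κ ∧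
    ∀ ε : ℝ, 0 < ε → ∃ k₀ : ℕ,
    ∀ k M u : ℕ, k₀ ≤ k → (k : ℝ) ^ θ ≤ M → 1 ≤ u → u + 3 * M ≤ 4 * k →
    ∃ h : ℕ, (h : ℝ) ≤ (M : ℝ) ^ η ∧ ∀ (v : ℕ) (A : Finset ℕ), A ⊆ Ioc v (v + M) → (M : ℝ) ^ (1 - κ) ≤ A.card →
      (A.card : ℝ) ^ 2 * (M : ℝ) ^ (-ε) ≤
        (((A ×ˢ A).filter (fun x => x.1 < x.2 ∧
          Good ((k : ℝ) ^ κ) r m k (u + ((x.2 : ℤ) - x.1 + h)))).card : ℝ) := by
  obtain ⟨κ, r, hκ, h1⟩ := Pool.Agent.H14.VC.lin_vc_win (2 * m) η θ hη hη1.le hθ 4
  refine ⟨κ, r, hκ, ?_⟩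
  intro ε hε
  obtain ⟨N₀, hN₀⟩ := h1 ε hε
  -- `M` is large
  obtain ⟨M₁, hM₁⟩ := Filter.eventually_atTop.1
    (((tendsto_rpow_atTop (show (0 : ℝ) < 1 - η by linarith)).comp tendsto_natCast_atTop_atTop).eventually_ge_atTop (2 : ℝ))
  obtain ⟨N₂, hN₂⟩ := Filter.eventually_atTop.1
    (((tendsto_rpow_atTop hθ).comp tendsto_natCast_atTop_atTop).eventually_ge_atTop
      ((max M₁ (2 * (m * (2 * m).factorial) + 3) : ℕ) : ℝ))
  refine ⟨max (max N₀ N₂) (max 3 (m * (2 * m).factorial)), ?_⟩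
  intro k M u hk hM hu huM
  have hk3 : 3 ≤ k := (le_max_left _ _).trans ((le_max_right _ _).trans hk)
  have hkm : m * (2 * m).factorial ≤ k := (le_max_right _ _).trans ((le_max_right _ _).trans hk)
  have hM1 : ((max M₁ (2 * (m * (2 * m).factorial) + 3) : ℕ) : ℝ) ≤ M :=
    (hN₂ k ((le_max_right _ _).trans ((le_max_left _ _).trans hk))).trans hM
  have hM2 : max M₁ (2 * (m * (2 * m).factorial) + 3) ≤ M := by exact_mod_cast hM1
  have hM3 : 2 * (m * (2 * m).factorial) + 3 ≤ M := (le_max_right _ _).trans hM2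
  have hMp : (0 : ℝ) < M := by exact_mod_cast (by omega : 0 < M)
  obtain ⟨h, hh, hA⟩ := hN₀ k M ((le_max_left _ _).trans ((le_max_left _ _).trans hk)) hM (fa m) (fb m k u)
    (by
      intro i
      have hk3' : (3 : ℤ) ≤ k := by exact_mod_cast hk3
      have hk4 : (k : ℤ) ^ 4 = k * k * (k * k) := by ring
      have hkk : 9 ≤ (k : ℤ) * k := by nlinarith
      have hkkb : 9 * ((k : ℤ) * k) ≤ (k : ℤ) ^ 4 := by rw [hk4]; nlinarith
      have hu4 : (u : ℤ) ≤ 4 * k := by
        have : u ≤ 4 * k := by omega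
        exact_mod_cast this
      have hu0 : (0 : ℤ) ≤ u := by positivity
      have hL : ∀ j : ℕ, j ≤ m → (j : ℤ) * (2 * m).factorial ≤ k := by
        intro j hj
        have h3 : (j : ℤ) * (2 * m).factorial ≤ (m : ℤ) * (2 * m).factorial := by
          apply mul_le_mul_of_nonneg_right _ (by positivity)
          omega
        have h4 : ((m * (2 * m).factorial : ℕ) : ℤ) ≤ k := by exact_mod_cast hkm
        push_cast at h4
        linarith
      have hL0 : ∀ j : ℕ, (0 : ℤ) ≤ (j : ℤ) * (2 * m).factorial := fun j => by positivity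
      constructor
      · unfold fa
        split_ifs
        · rw [abs_one]
          nlinarith
        · rw [abs_neg, abs_one]
          nlinarith
      · unfold fb
        split_ifs with him
        · have h5 := hL i him.le
          have h6 := hL0 i
          rw [abs_le]
          constructor <;> nlinarith
        · have h5 := hL ((i : ℕ) - m) (by have := i.2; omega)
          have h6 := hL0 ((i : ℕ) - m)
          rw [abs_le]
          constructor <;> nlinarith)
    (f_adm m k u)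
  refine ⟨h, hh, ?_⟩
  intro v A hAv hcard
  refine (hA v A hAv hcard).trans ?_
  apply Nat.cast_le.2
  apply card_le_card
  rintro ⟨a, b⟩ hx
  rw [mem_filter, mem_product] at hx ⊢
  obtain ⟨⟨ha, hb⟩, hlt, hx3⟩ := hx
  refine ⟨⟨ha, hb⟩, hlt, ?_⟩
  simp only at ha hb hlt hx3 ⊢
  have haM := mem_Ioc.1 (hAv ha)
  have hbM := mem_Ioc.1 (hAv hb)
  -- the shift is at most half of `M`
  have hh2 : 2 * h ≤ M := by
    have h3 : (2 : ℝ) ≤ (M : ℝ) ^ (1 - η) := hM₁ M ((le_max_left _ _).trans hM2)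
    have h4 : (M : ℝ) = (M : ℝ) ^ η * (M : ℝ) ^ (1 - η) := by
      rw [← Real.rpow_add hMp]
      norm_num
    have h5 : 2 * (h : ℝ) ≤ M := by
      rw [h4]
      have : (0 : ℝ) ≤ h := Nat.cast_nonneg _
      nlinarith [Real.rpow_nonneg hMp.le η]
    exact_mod_cast h5
  intro j hj
  have hj1 := (hx3 ⟨j, by omega⟩).1
  have hj2 := (hx3 ⟨m + j, by omega⟩).1
  unfold fa fb at hj1 hj2
  simp only at hj1 hj2
  rw [if_pos hj, if_pos hj] at hj1
  rw [if_neg (by omega), if_neg (by omega)] at hj2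
  have ej : m + j - m = j := by omega
  rw [ej] at hj2
  obtain ⟨t, ht⟩ : ∃ t : ℤ, t = (u : ℤ) + (((b : ℤ) - a) + h) + j * (2 * m).factorial := ⟨_, rfl⟩
  rw [← ht]
  have e1 : 1 * ((b : ℤ) - a + h) + ((2 * (k : ℤ) - 1) ^ 2 + u + j * (2 * m).factorial) =
      (2 * (k : ℤ) - 1) ^ 2 + t := by
    rw [ht]; ring
  have e2 : -1 * ((b : ℤ) - a + h) + ((2 * (k : ℤ) + 1) ^ 2 - u - j * (2 * m).factorial) =
      (2 * (k : ℤ) + 1) ^ 2 - t := by
    rw [ht]; ring
  rw [e1] at hj1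
  rw [e2] at hj2
  have htpos : 0 < t := by
    have : (0 : ℤ) ≤ (j : ℤ) * (2 * m).factorial := by positivity
    rw [ht]
    omega
  have htle : t < 4 * k := by
    have h3 : (j : ℤ) * (2 * m).factorial ≤ (m : ℤ) * (2 * m).factorial := by
      apply mul_le_mul_of_nonneg_right _ (by positivity)
      omega
    have h4 : ((m * (2 * m).factorial : ℕ) : ℤ) = (m : ℤ) * (2 * m).factorial := by push_cast; ring
    rw [← h4] at h3
    rw [ht]
    omega
  have hsq1 : (2 * (k : ℤ)) ^ 2 = (2 * (k : ℤ) - 1) ^ 2 + 4 * k - 1 := by ring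
  have hsq2 : (2 * (k : ℤ) + 1) ^ 2 = (2 * (k : ℤ)) ^ 2 + 4 * k + 1 := by ring
  refine ⟨⟨by omega, by omega, hj1⟩, ⟨?_, by omega, hj2⟩⟩
  omega

end Pool.Agent.Results.MP_5f6ee5_nt.DifferenceSets
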