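import Pool.Agent.H18.HG.App2

/-!
# Symmetric almost primes between consecutive odd squares, at the simplices of dense hypergraphs and at monochromatic cliques
-/

set_option autoImplicit false

namespace Pool.Agent.Results.MP_5f6ee5_nt.HypergraphCliques

open Finset
open Pool.Agent.H18.HG

/-- all prime factors of the positive integer `m` exceed `y` and there are at most `r` of them, counted with
multiplicity -/
def AlmostPrime (y : ℝ) (r : ℕ) (m : ℤ) : Prop :=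
  0 < m ∧ (∀ p : ℕ, p.Prime → (p : ℤ) ∣ m → y < p) ∧ ArithmeticFunction.cardFactors m.natAbs ≤ r

/-- the numbers `(2 K - 1) ^ 2 + n` and `(2 K + 1) ^ 2 - n` are almost primes, the first in the left half and
the second in the right half of the interval between the two squares -/
def Good (κ : ℝ) (r K : ℕ) (n : ℤ) : Prop :=
  ((2 * (K : ℤ) - 1) ^ 2 < (2 * (K : ℤ) - 1) ^ 2 + n ∧ (2 * (K : ℤ) - 1) ^ 2 + n ≤ (2 * (K : ℤ)) ^ 2 ∧
    AlmostPrime ((K : ℝ) ^ κ) r ((2 * (K : ℤ) - 1) ^ 2 + n)) ∧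
  ((2 * (K : ℤ)) ^ 2 < (2 * (K : ℤ) + 1) ^ 2 - n ∧ (2 * (K : ℤ) + 1) ^ 2 - n < (2 * (K : ℤ) + 1) ^ 2 ∧
    AlmostPrime ((K : ℝ) ^ κ) r ((2 * (K : ℤ) + 1) ^ 2 - n))

/-- the box `{1, ..., M} ^ (k + 1)` -/
noncomputable def box (k M : ℕ) : Finset (Fin (k + 1) → ℤ) := Fintype.piFinset (fun _ => Icc (1 : ℤ) M)

open Classical in
/-- the points of the box satisfying all the relations `E 0, ..., E k` -/
noncomputable def simplices (k M : ℕ) (E : Fin (k + 1) → (Fin (k + 1) → ℤ) → Prop) : Finset (Fin (k + 1) → ℤ) :=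
  (box k M).filter (fun x => ∀ i, E i x)

/-- the relation `E i` does not depend on the coordinate `i` -/
def Hypergraph {k : ℕ} (E : Fin (k + 1) → (Fin (k + 1) → ℤ) → Prop) : Prop :=
  ∀ (i : Fin (k + 1)) (x y : Fin (k + 1) → ℤ), (∀ j, j ≠ i → x j = y j) → (E i x ↔ E i y)

/-- nonzero coefficients bounded by `A` -/
def Coeff {k t : ℕ} (A : ℕ) (c : Fin t → Fin (k + 1) → ℤ) : Prop := ∀ j i, c j i ≠ 0 ∧ |c j i| ≤ A

/-- the length of the windows is at least a power of `K j`, and the windows are inside `(0, 4 K j)` -/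
def Windows {t : ℕ} (k A H : ℕ) (θ : ℝ) (M : ℕ) (K u : Fin t → ℕ) : Prop :=
  ∀ j, (K j : ℝ) ^ θ ≤ M ∧ A * (k + 1) * M < u j ∧ u j + A * (k + 1) * M + H < 4 * K j

/-- all the subsets with `l` elements of the set of the coordinates have the colour `col` -/
def Mono {k q : ℕ} (χ : Finset ℕ → Fin q) (l : ℕ) (col : Fin q) (x : Fin (k + 1) → ℤ) : Prop :=
  ∀ I : Finset (Fin (k + 1)), I.card = l → χ (I.image (fun i => (x i).toNat)) = col

lemma windows_room {t k A H : ℕ} {θ : ℝ} {M : ℕ} {K u : Fin t → ℕ} (h : Windows k A H θ M K u)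
    (hbig : ∀ j, 9 ≤ K j) (j : Fin t) :
    (((K j) ^ 3 : ℕ) : ℝ) ^ (θ / 3) ≤ M ∧ Room ((2 * (K j : ℤ) - 1) ^ 2 + u j) ((2 * (K j : ℤ) + 1) ^ 2 - u j)
      ((K j) ^ 3) (A * (k + 1) * M) H := by
  obtain ⟨h1, h2, h3⟩ := h j
  have hK := hbig j
  have hKz : (9 : ℤ) ≤ K j := by exact_mod_cast hK
  have h4 : ((u j + A * (k + 1) * M + H : ℕ) : ℤ) < ((4 * K j : ℕ) : ℤ) := by exact_mod_cast h3
  have h5 : ((A * (k + 1) * M : ℕ) : ℤ) < ((u j : ℕ) : ℤ) := by exact_mod_cast h2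
  have h6 : (0 : ℤ) ≤ (2 * (K j : ℤ) - 1) ^ 2 := by positivity
  refine ⟨?_, ⟨?_, ?_, ?_, ?_⟩⟩
  · push_cast
    rw [← Real.rpow_natCast, ← Real.rpow_mul (by positivity)]
    have e : ((3 : ℕ) : ℝ) * (θ / 3) = θ := by push_cast; ring
    rw [e]
    exact h1
  · exact ⟨4 * (K j : ℤ) ^ 2 + 1, by ring⟩
  · push_cast
    nlinarith [mul_le_mul_of_nonneg_left hKz (by positivity : (0 : ℤ) ≤ (K j : ℤ) ^ 2), sq_nonneg ((K j : ℤ) - 1)]
  · push_cast at h5 ⊢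
    linarith
  · push_cast at h4 ⊢
    nlinarith

lemma good_of {κ κ' : ℝ} {r r' K : ℕ} (hK : 9 ≤ K) (hκ : κ' ≤ κ) (hr : r ≤ r') (u : ℕ) (ν : ℤ) (h : ℕ)
    (h0 : 0 < (u : ℤ) + h + ν) (h1 : (u : ℤ) + h + ν < 4 * K)
    (hg : AP (((K ^ 3 : ℕ) : ℝ) ^ κ) r ((2 * (K : ℤ) - 1) ^ 2 + u + (ν + h)) ∧
      AP (((K ^ 3 : ℕ) : ℝ) ^ κ) r ((2 * (K : ℤ) + 1) ^ 2 - u - (ν + h))) : Good (3 * κ') r' K ((u : ℤ) + h + ν) := by
  have hX : 1 ≤ K ^ 3 := Nat.one_le_pow _ _ (by omega)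
  have h2 := AP_mono hX hκ hr hg.1
  have h3 := AP_mono hX hκ hr hg.2
  have e1 : (2 * (K : ℤ) - 1) ^ 2 + u + (ν + h) = (2 * (K : ℤ) - 1) ^ 2 + (u + h + ν) := by ring
  have e2 : (2 * (K : ℤ) + 1) ^ 2 - u - (ν + h) = (2 * (K : ℤ) + 1) ^ 2 - (u + h + ν) := by ring
  have e3 : ((K ^ 3 : ℕ) : ℝ) ^ κ' = (K : ℝ) ^ (3 * κ') := by
    push_cast
    rw [Real.rpow_mul (by positivity), ← Real.rpow_natCast]
    norm_num
  rw [e1, e3] at h2
  rw [e2, e3] at h3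
  have hsq1 : (2 * (K : ℤ)) ^ 2 = (2 * (K : ℤ) - 1) ^ 2 + 4 * K - 1 := by ring
  have hsq2 : (2 * (K : ℤ) + 1) ^ 2 = (2 * (K : ℤ)) ^ 2 + 4 * K + 1 := by ring
  refine ⟨⟨by linarith, ?_, h2⟩, ⟨?_, by linarith, h3⟩⟩
  · rw [hsq1]
    omega
  · rw [hsq2]
    omega

lemma range_of {t k A H : ℕ} {θ : ℝ} {M : ℕ} {K u : Fin t → ℕ} (hw : Windows k A H θ M K u) (j : Fin t)
    (h : ℕ) (hh : h ≤ H) (c : Fin (k + 1) → ℤ) (hc : ∀ i, |c i| ≤ A) (x : Fin (k + 1) → ℤ)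
    (hx : ∀ i, 1 ≤ x i ∧ x i ≤ M) :
    0 < (u j : ℤ) + h + lin c x ∧ (u j : ℤ) + h + lin c x < 4 * K j := by
  obtain ⟨-, h2, h3⟩ := hw j
  have h1 := abs_lin_le c A M hc x hx
  rw [abs_le] at h1
  have h4 : ((u j + A * (k + 1) * M + H : ℕ) : ℤ) < ((4 * K j : ℕ) : ℤ) := by exact_mod_cast h3
  have h5 : ((A * (k + 1) * M : ℕ) : ℤ) < ((u j : ℕ) : ℤ) := by exact_mod_cast h2
  have h6 : (h : ℤ) ≤ H := by exact_mod_cast hh
  have h7 : (0 : ℤ) ≤ h := by positivity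
  push_cast at h1 h4 h5
  constructor <;> linarith

open Classical in
/-- **Symmetric almost primes between consecutive odd squares, at the simplices of dense hypergraphs and at
monochromatic cliques.** -/
theorem result (k t : ℕ) (θ : ℝ) (hθ : 0 < θ) : ∃ (κ : ℝ) (r : ℕ), 0 < κ ∧
    (∀ (A : ℕ) (δ : ℝ), 0 < δ → ∃ (H : ℕ) (C : ℝ), 0 < C ∧ ∃ M₀ : ℕ, ∀ M : ℕ, M₀ ≤ M →
      ∀ K u : Fin t → ℕ, Windows k A H θ M K u → ∀ c : Fin t → Fin (k + 1) → ℤ, Coeff A c →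
      ∀ E : Fin (k + 1) → (Fin (k + 1) → ℤ) → Prop, Hypergraph E →
      δ * (M : ℝ) ^ (k + 1) ≤ (simplices k M E).card →
      ∃ h : Fin t → ℕ, (∀ j, h j ≤ H) ∧ C * (M : ℝ) ^ (k + 1) / Real.log M ^ (2 * t) ≤
        (((simplices k M E).filter (fun x => ∀ j, Good κ r (K j) (u j + h j + ∑ i, c j i * x i))).card : ℝ)) ∧
    (2 ≤ k → ∀ A q l : ℕ, 1 ≤ q → l ≤ k → ∃ (H : ℕ) (C : ℝ), 0 < C ∧ ∃ M₀ : ℕ, ∀ M : ℕ, M₀ ≤ M →
      ∀ K u : Fin t → ℕ, Windows k A H θ M K u → ∃ h : Fin t → ℕ, (∀ j, h j ≤ H) ∧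
      ∀ c : Fin t → Fin (k + 1) → ℤ, Coeff A c → ∀ χ : Finset ℕ → Fin q,
      C * (M : ℝ) ^ (k + 1) / Real.log M ^ (2 * t) ≤
        (((box k M).filter (fun x => StrictMono x ∧ (∃ col, Mono χ l col x) ∧
          ∀ j, Good κ r (K j) (u j + h j + ∑ i, c j i * x i))).card : ℝ)) := by
  have hθ3 : 0 < θ / 3 := by positivity
  obtain ⟨κ₁, r₁, hκ₁, h1⟩ := pairs_dense k t (θ / 3) hθ3
  obtain ⟨κ₂, r₂, hκ₂, h2⟩ : ∃ (κ : ℝ) (r : ℕ), 0 < κ ∧ (2 ≤ k →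
      ∀ A q l : ℕ, 1 ≤ q → l ≤ k → ∃ (H : ℕ) (C : ℝ), 0 < C ∧ ∃ M₀ : ℕ, ∀ M : ℕ, M₀ ≤ M →
      ∀ (a b : Fin t → ℤ) (X : Fin t → ℕ),
      (∀ j, (X j : ℝ) ^ (θ / 3) ≤ M ∧ Room (a j) (b j) (X j) (A * (k + 1) * M) H) →
      ∃ h : Fin t → ℕ, (∀ j, h j ≤ H) ∧
      ∀ c : Fin t → Fin (k + 1) → ℤ, (∀ j i, c j i ≠ 0 ∧ |c j i| ≤ A) →
      ∀ χ : Finset ℕ → Fin q, C * (M : ℝ) ^ (k + 1) / Real.log M ^ (2 * t) ≤
        (((Fintype.piFinset (fun _ : Fin (k + 1) => Icc (1 : ℤ) M)).filter (fun x => StrictMono x ∧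
          (∃ col, Pool.Agent.H18.HG.Mono χ l col x) ∧ ∀ j, AP ((X j : ℝ) ^ κ) r (a j + (lin (c j) x + h j)) ∧
          AP ((X j : ℝ) ^ κ) r (b j - (lin (c j) x + h j)))).card : ℝ)) := by
    by_cases hk : 2 ≤ k
    · obtain ⟨κ, r, hκ, h⟩ := pairs_ramsey k t hk (θ / 3) hθ3
      exact ⟨κ, r, hκ, fun _ => h⟩
    · exact ⟨1, 0, one_pos, fun h => absurd h hk⟩
  have hmin : 0 < min κ₁ κ₂ := lt_min hκ₁ hκ₂
  -- the numbers `K j` are large if `M` is positive, unless the coefficients are bounded by `0`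
  have hbig : ∀ (A H M : ℕ) (K u : Fin t → ℕ), 1 ≤ A → 40 ≤ M → Windows k A H θ M K u → ∀ j, 9 ≤ K j := by
    intro A H M K u hA hM hw j
    obtain ⟨-, h3, h4⟩ := hw j
    have h5 : 1 * 1 * M ≤ A * (k + 1) * M := Nat.mul_le_mul (Nat.mul_le_mul hA (by omega)) le_rfl
    omega
  refine ⟨3 * min κ₁ κ₂, max r₁ r₂, by positivity, ?_, ?_⟩
  · intro A δ hδ
    obtain ⟨H, C, hC, M₀, hM₀⟩ := h1 A δ hδ
    refine ⟨H, C, hC, max M₀ 40, ?_⟩
    intro M hM K u hNu c hc E hE hEδ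
    have hM40 : 40 ≤ M := (le_max_right _ _).trans hM
    have hA : t = 0 ∨ 1 ≤ A := by
      rcases Nat.eq_zero_or_pos t with h | h
      · exact Or.inl h
      · right
        obtain ⟨h3, h4⟩ := hc ⟨0, h⟩ 0
        have h5 := Int.one_le_abs h3
        omega
    have hK9 : ∀ j, 9 ≤ K j := by
      intro j
      rcases hA with hA | hA
      · exact absurd j.2 (by omega)
      · exact hbig A H M K u hA hM40 hNu j
    obtain ⟨h, hh, hcount⟩ := hM₀ M ((le_max_left _ _).trans hM) (fun j => (2 * (K j : ℤ) - 1) ^ 2 + u j)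
      (fun j => (2 * (K j : ℤ) + 1) ^ 2 - u j) (fun j => (K j) ^ 3) (windows_room hNu hK9) c hc E hE hEδ
    refine ⟨h, hh, hcount.trans (Nat.cast_le.2 (card_le_card ?_))⟩
    intro x hx
    rw [mem_filter] at hx ⊢
    refine ⟨hx.1, fun j => ?_⟩
    have hxM : ∀ i, 1 ≤ x i ∧ x i ≤ M := by
      have h3 := hx.1
      unfold CY PX at h3
      rw [mem_filter, Fintype.mem_piFinset] at h3
      exact fun i => mem_Icc.1 (h3.1 i)
    have h4 := range_of hNu j (h j) (hh j) (c j) (fun i => (hc j i).2) x hxM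
    exact good_of (hK9 j) (min_le_left _ _) (le_max_left _ _) _ _ _ h4.1 h4.2 (hx.2 j)
  · intro hk A q l hq hl
    obtain ⟨H, C, hC, M₀, hM₀⟩ := h2 hk A q l hq hl
    refine ⟨H, C, hC, max M₀ 40, ?_⟩
    intro M hM K u hNu
    have hM40 : 40 ≤ M := (le_max_right _ _).trans hM
    rcases Nat.eq_zero_or_pos A with hA | hA
    · -- no coefficients, unless there are no forms
      rcases Nat.eq_zero_or_pos t with ht | ht
      · obtain ⟨h, hh, hcount⟩ := hM₀ M ((le_max_left _ _).trans hM) (fun j => absurd j.2 (by omega))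
          (fun j => absurd j.2 (by omega)) (fun j => absurd j.2 (by omega)) (fun j => absurd j.2 (by omega))
        refine ⟨h, hh, ?_⟩
        intro c hc χ
        refine (hcount c hc χ).trans (Nat.cast_le.2 (card_le_card ?_))
        intro x hx
        rw [mem_filter] at hx ⊢
        exact ⟨hx.1, hx.2.1, hx.2.2.1, fun j => absurd j.2 (by omega)⟩
      · refine ⟨fun _ => 0, fun _ => Nat.zero_le _, ?_⟩
        intro c hc
        obtain ⟨h3, h4⟩ := hc ⟨0, ht⟩ 0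
        have h5 := Int.one_le_abs h3
        exfalso
        omega
    have hK9 : ∀ j, 9 ≤ K j := hbig A H M K u hA hM40 hNu
    obtain ⟨h, hh, hcount⟩ := hM₀ M ((le_max_left _ _).trans hM) (fun j => (2 * (K j : ℤ) - 1) ^ 2 + u j)
      (fun j => (2 * (K j : ℤ) + 1) ^ 2 - u j) (fun j => (K j) ^ 3) (windows_room hNu hK9)
    refine ⟨h, hh, ?_⟩
    intro c hc χ
    refine (hcount c hc χ).trans (Nat.cast_le.2 (card_le_card ?_))
    intro x hx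
    rw [mem_filter] at hx ⊢
    refine ⟨hx.1, hx.2.1, hx.2.2.1, fun j => ?_⟩
    have hxM : ∀ i, 1 ≤ x i ∧ x i ≤ M := by
      have h3 := hx.1
      rw [Fintype.mem_piFinset] at h3
      exact fun i => mem_Icc.1 (h3 i)
    have h4 := range_of hNu j (h j) (hh j) (c j) (fun i => (hc j i).2) x hxM
    exact good_of (hK9 j) (min_le_right _ _) (le_max_right _ _) _ _ _ h4.1 h4.2 (hx.2.2.2 j)

end Pool.Agent.Results.MP_5f6ee5_nt.HypergraphCliques
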