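import Pool.Agent.H31.GP.Lin

set_option autoImplicit false

/-!
# Multiplicative functions at the positions of almost prime patterns between consecutive odd squares

For `k ≥ 1` let `I_k = ((2 k - 1) ^ 2, (2 k + 1) ^ 2)`. For finite sets `H`, `H'` of integers in `[0, 4 k)` with together at most
`t` elements the positions `m ≤ N ≤ 4 k` are considered for which all the numbers `(2 k - 1) ^ 2 + m + h`, `h ∈ H`, and
`(2 k + 1) ^ 2 - m - h`, `h ∈ H'`, which lie in `I_k`, are free of prime factors `≤ y`, where `y` is a small power of `N`, and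
`N` may be an arbitrarily small power of `k`. For instance the two numbers `(2 k - 1) ^ 2 + m` and `(2 k + 1) ^ 2 - m`, or the
two numbers `(2 k - 1) ^ 2 + m` and `(2 k - 1) ^ 2 + m + g` with any even `g < 4 k`. For EVERY large `k`, uniformly in the
pattern, it is shown that `m + b` does not correlate with ANY multiplicative function `g` with values in the unit disc (`g` may
depend on `k`, `N`, `b` and the pattern): the mean value of `g (m + b)` along these `m` is up to `ε` the mean value over the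
`m ≤ N` for which the numbers are free of prime factors `≤ w`, where `w` is a constant. In particular the Liouville function of
`m + b` takes the values `1` and `-1` asymptotically equally often. This holds for all `b ≤ N` for which the sum of `1 / p` over
the primes `w < p ≤ y` for which `p` divides one of the numbers if `m = -b` is small (for these primes `m + b` is not divisible
by `p`); these are all `b ≤ N` but for a proportion of at most `ε`, and for the pair `(2 k - 1) ^ 2 + m`, `(2 k + 1) ^ 2 - m`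
the number `b = 0` is among them for all `k` but for a proportion of at most `ε`.

Proof. Katai's method in a weighted form, uniformly for all polynomials of bounded degree with coefficients bounded by a power
of `N`: the inequality of Turan and Kubilius for the sifted set, and the bilinear sums, which are bounded by the fundamental lemma
for the product of the polynomials for `p m - b` and `q m - b`; the singular series are estimated on average over the primes `p`
and `q` with resultants and the inequality of Brun and Titchmarsh.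
-/

namespace Pool.Agent.Results.MP_5f6ee5_nt.MultiplicativePositions

open Finset Filter

/-- The prime `p` divides one of the numbers `(2 k - 1) ^ 2 + m + h`, `h ∈ H`, and `(2 k + 1) ^ 2 - m - h`, `h ∈ H'`. -/
def Hit (k : ℕ) (H H' : Finset ℕ) (p : ℕ) (m : ℤ) : Prop :=
  (∃ h ∈ H, (p : ℤ) ∣ (2 * k - 1) ^ 2 + m + h) ∨ ∃ h ∈ H', (p : ℤ) ∣ (2 * k + 1) ^ 2 - m - h

/-- No prime divides for every `m` one of the numbers. -/
def Admissible (k : ℕ) (H H' : Finset ℕ) : Prop := ∀ p : ℕ, p.Prime → ∃ m : ℕ, ¬ Hit k H H' p m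

open Classical in
/-- The positions `1 ≤ m ≤ N` for which all the prime factors of all the numbers are larger than `y`. -/
noncomputable def rough (k : ℕ) (H H' : Finset ℕ) (y N : ℕ) : Finset ℕ :=
  (Icc 1 N).filter (fun m => ∀ p : ℕ, p.Prime → Hit k H H' p m → y < p)

open Classical in
/-- The product over the primes `p ≤ y` of `1 - ν (p) / p`, where `ν (p)` is the number of the residue classes `m` modulo `p`
for which `p` divides one of the numbers. -/
noncomputable def V (k : ℕ) (H H' : Finset ℕ) (y : ℕ) : ℝ := ∏ p ∈ (range (y + 1)).filter Nat.Prime,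
  (1 - (((range p).filter (fun m : ℕ => Hit k H H' p m)).card : ℝ) / p)

/-- The mean value of a function over a finite set. -/
noncomputable def mean (S : Finset ℕ) (g : ℕ → ℂ) : ℂ := (∑ n ∈ S, g n) / (S.card : ℂ)

open Classical in
/-- The sum of `1 / p` over the primes `w < p ≤ y` which divide one of the numbers with `m = -b`. -/
noncomputable def defect (k : ℕ) (H H' : Finset ℕ) (b w y : ℕ) : ℝ :=
  ∑ p ∈ (Ioc w y).filter (fun p : ℕ => p.Prime ∧ Hit k H H' p (-(b : ℤ))), 1 / (p : ℝ)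

open Pool.Agent.H31 Polynomial

/-- the constant terms -/
def cc (k : ℕ) : ℕ ⊕ ℕ → ℤ := Sum.elim (fun h => (2 * k - 1) ^ 2 + h) (fun h => h - (2 * k + 1) ^ 2)

/-- the polynomial -/
noncomputable def pol (k : ℕ) (H H' : Finset ℕ) : ℤ[X] := GP.PL (H.disjSum H') (cc k)

lemma dvd_pol (k : ℕ) (H H' : Finset ℕ) (p : ℕ) (hp : p.Prime) (m : ℤ) : (p : ℤ) ∣ (pol k H H').eval m ↔ Hit k H H' p m := by
  unfold pol Hit
  rw [GP.dvd_PL _ _ p hp]
  constructor
  · rintro ⟨i, hi, h1⟩
    rcases i with h | h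
    · left
      refine ⟨h, by simpa using hi, ?_⟩
      have : m + cc k (Sum.inl h) = (2 * k - 1) ^ 2 + m + h := by
        unfold cc
        simp only [Sum.elim_inl]
        ring
      rw [this] at h1
      exact h1
    · right
      refine ⟨h, by simpa using hi, ?_⟩
      have : m + cc k (Sum.inr h) = -((2 * k + 1) ^ 2 - m - h) := by
        unfold cc
        simp only [Sum.elim_inr]
        ring
      rw [this, dvd_neg] at h1
      exact h1
  · rintro (⟨h, hh, h1⟩ | ⟨h, hh, h1⟩)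
    · refine ⟨Sum.inl h, by simpa using hh, ?_⟩
      have : m + cc k (Sum.inl h) = (2 * k - 1) ^ 2 + m + h := by
        unfold cc
        simp only [Sum.elim_inl]
        ring
      rw [this]
      exact h1
    · refine ⟨Sum.inr h, by simpa using hh, ?_⟩
      have : m + cc k (Sum.inr h) = -((2 * k + 1) ^ 2 - m - h) := by
        unfold cc
        simp only [Sum.elim_inr]
        ring
      rw [this, dvd_neg]
      exact h1

lemma RF_pol (k : ℕ) (H H' : Finset ℕ) (p : ℕ) (hp : p.Prime) (n : ℕ) : GP.RF (pol k H H') p n ↔ Hit k H H' p n := by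
  unfold GP.RF
  exact dvd_pol k H H' p hp n

lemma sys_pol (k : ℕ) (H H' : Finset ℕ) (t : ℕ) (ht : H.card + H'.card ≤ t) (ha : Admissible k H H') :
    GP.Sys (pol k H H') t := by
  apply GP.PL_sys
  · rw [card_disjSum]
    exact ht
  · intro p hp
    obtain ⟨m, hm⟩ := ha p hp
    refine ⟨m, fun i hi h1 => hm ?_⟩
    rw [← dvd_pol k H H' p hp]
    unfold pol
    rw [GP.dvd_PL _ _ p hp]
    exact ⟨i, hi, h1⟩

lemma coeff_pol (k : ℕ) (H H' : Finset ℕ) (t A N : ℕ) (ht : H.card + H'.card ≤ t) (hH : ∀ h ∈ H, h < 4 * k)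
    (hH' : ∀ h ∈ H', h < 4 * k) (hN : 16 ≤ N) (hk : k ≤ N ^ A) (i : ℕ) :
    |(pol k H H').coeff i| ≤ (N : ℤ) ^ ((2 * A + 2) * t) := by
  have hN1 : (1 : ℤ) ≤ N := by exact_mod_cast (by omega : 1 ≤ N)
  have hk' : (k : ℤ) ≤ (N : ℤ) ^ A := by exact_mod_cast hk
  have hk0 : (0 : ℤ) ≤ k := by positivity
  have h1 : |(pol k H H').coeff i| ≤ ((2 * k + 1) ^ 2 + 4 * k + 1 : ℤ) ^ (H.disjSum H').card := by
    apply GP.PL_coeff _ _ _ (by positivity)
    intro j hj
    rcases j with h | h
    · have hh : h < 4 * k := hH h (by simpa using hj)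
      have hh' : (h : ℤ) < 4 * k := by exact_mod_cast hh
      unfold cc
      simp only [Sum.elim_inl]
      rw [abs_of_nonneg (by positivity)]
      nlinarith
    · have hh : h < 4 * k := hH' h (by simpa using hj)
      have hh' : (h : ℤ) < 4 * k := by exact_mod_cast hh
      have hh0 : (0 : ℤ) ≤ h := by positivity
      unfold cc
      simp only [Sum.elim_inr]
      rw [abs_le]
      constructor <;> nlinarith
  have h2 : ((2 * k + 1) ^ 2 + 4 * k + 1 : ℤ) ≤ (N : ℤ) ^ (2 * A + 2) := by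
    have h3 : (1 : ℤ) ≤ (N : ℤ) ^ A := one_le_pow₀ hN1
    have h4 : ((N : ℤ) ^ A) ^ 2 * N ^ 2 = (N : ℤ) ^ (2 * A + 2) := by ring
    have h5 : (256 : ℤ) ≤ (N : ℤ) ^ 2 := by
      have : (16 : ℤ) ≤ N := by exact_mod_cast hN
      nlinarith
    rw [← h4]
    have h6 : (k : ℤ) ^ 2 ≤ ((N : ℤ) ^ A) ^ 2 := by nlinarith
    have h7 : (0 : ℤ) ≤ ((N : ℤ) ^ A) ^ 2 := by positivity
    nlinarith
  rw [card_disjSum] at h1
  calc |(pol k H H').coeff i| ≤ ((2 * k + 1) ^ 2 + 4 * k + 1 : ℤ) ^ (H.card + H'.card) := h1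
    _ ≤ ((N : ℤ) ^ (2 * A + 2)) ^ (H.card + H'.card) := pow_le_pow_left₀ (by positivity) h2 _
    _ = (N : ℤ) ^ ((2 * A + 2) * (H.card + H'.card)) := by rw [← pow_mul]
    _ ≤ _ := pow_le_pow_right₀ hN1 (Nat.mul_le_mul_left _ ht)

lemma rough_eq (k : ℕ) (H H' : Finset ℕ) (y N : ℕ) : rough k H H' y N = GP.roughI (pol k H H') y (Icc 1 N) := by
  classical
  unfold rough GP.roughI
  apply filter_congr
  intro m _
  constructor
  · intro h p hp h1
    exact h p hp ((RF_pol k H H' p hp m).1 h1)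
  · intro h p hp h1
    exact h p hp ((RF_pol k H H' p hp m).2 h1)

lemma V_eq (k : ℕ) (H H' : Finset ℕ) (y : ℕ) : V k H H' y = GP.V (pol k H H') y := by
  classical
  unfold V GP.V
  have e : (range (y + 1)).filter Nat.Prime = Pool.Agent.H373R2.T7.pz y := by
    ext p
    rw [mem_filter, mem_range, Pool.Agent.H373R2.T7.mem_pz, Nat.lt_succ_iff]
  rw [e]
  apply prod_congr rfl
  intro p hp
  have hpp : p.Prime := (Pool.Agent.H373R2.T7.mem_pz.1 hp).2
  unfold GP.rh
  congr 4
  ext m
  rw [mem_filter, mem_range, GP.mem_ZF, one_mul, add_zero, RF_pol k H H' p hpp]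

lemma defect_eq (k : ℕ) (H H' : Finset ℕ) (b w y : ℕ) : defect k H H' b w y = GP.hb (pol k H H') b w y := by
  classical
  unfold defect GP.hb
  apply sum_congr _ fun _ _ => rfl
  ext p
  rw [mem_filter, mem_filter, mem_Ioc, MF.mem_mid]
  constructor
  · rintro ⟨h1, h2, h3⟩
    exact ⟨⟨h2, h1⟩, (dvd_pol k H H' p h2 _).2 h3⟩
  · rintro ⟨⟨h2, h1⟩, h3⟩
    exact ⟨h1, h2, (dvd_pol k H H' p h2 _).1 h3⟩

/-- the polynomial for the average over `k` -/
noncomputable def pk : ℤ[X] := (C 2 * X + 1) * (C 2 * X - 1)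

lemma sys_pk : GP.Sys pk 2 := by
  refine ⟨?_, fun p hp => ⟨0, ?_⟩⟩
  · unfold pk
    compute_degree
  · unfold GP.RF pk
    simp only [Nat.cast_zero, eval_mul, eval_add, eval_sub, eval_C, eval_X, eval_one, mul_zero, zero_add, zero_sub, one_mul]
    intro h
    rw [dvd_neg, ← Int.natCast_one, Int.natCast_dvd_natCast] at h
    exact hp.one_lt.ne' (Nat.dvd_one.1 h)

lemma defect_zero (k w y : ℕ) : defect k {0} {0} 0 w y = GP.hb pk k w y := by
  classical
  unfold defect GP.hb
  apply sum_congr _ fun _ _ => rfl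
  ext p
  rw [mem_filter, mem_filter, mem_Ioc, MF.mem_mid]
  have key : ∀ p : ℕ, p.Prime → (Hit k {0} {0} p (-((0 : ℕ) : ℤ)) ↔ (p : ℤ) ∣ pk.eval (-(k : ℤ))) := by
    intro p hp
    have hpz : Prime (p : ℤ) := Nat.prime_iff_prime_int.1 hp
    unfold Hit pk
    simp only [mem_singleton, exists_eq_left, eval_mul, eval_add, eval_sub, eval_C, eval_X, eval_one]
    have e1 : ((2 * k - 1) ^ 2 + -((0 : ℕ) : ℤ) + ((0 : ℕ) : ℤ) : ℤ) = (2 * k - 1) ^ 2 := by push_cast; ring
    have e2 : ((2 * k + 1) ^ 2 - -((0 : ℕ) : ℤ) - ((0 : ℕ) : ℤ) : ℤ) = (2 * k + 1) ^ 2 := by push_cast; ring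
    rw [e1, e2, hpz.dvd_pow_iff_dvd two_ne_zero, hpz.dvd_pow_iff_dvd two_ne_zero, ← hpz.dvd_mul]
    have e3 : (2 * -(k : ℤ) + 1) * (2 * -(k : ℤ) - 1) = (2 * k - 1) * (2 * k + 1) := by ring
    rw [e3]
  constructor
  · rintro ⟨h1, h2, h3⟩
    exact ⟨⟨h2, h1⟩, (key p h2).1 h3⟩
  · rintro ⟨⟨h2, h1⟩, h3⟩
    exact ⟨h1, h2, (key p h2).2 h3⟩

lemma adm_pair (k : ℕ) : Admissible k {0} {0} := by
  intro p hp
  by_contra hcon
  push Not at hcon
  have hpz : Prime (p : ℤ) := Nat.prime_iff_prime_int.1 hp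
  have key : ∀ m : ℕ, (p : ℤ) ∣ ((2 * k - 1) ^ 2 + m) * ((2 * k + 1) ^ 2 - m) := by
    intro m
    have := hcon m
    unfold Hit at this
    simp only [mem_singleton, exists_eq_left, Nat.cast_zero, add_zero, sub_zero] at this
    rcases this with h | h
    · exact h.mul_right _
    · exact h.mul_left _
  have h0 := key 0
  have h1 := key 1
  have h2 := key 2
  have h3 : (p : ℤ) ∣ 2 := by
    have h4 := ((h1.mul_left 2).sub h0).sub h2
    have e : 2 * (((2 * k - 1) ^ 2 + ((1 : ℕ) : ℤ)) * ((2 * k + 1) ^ 2 - ((1 : ℕ) : ℤ))) - (((2 * k - 1) ^ 2 + ((0 : ℕ) : ℤ)) * ((2 * k + 1) ^ 2 - ((0 : ℕ) : ℤ)))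
        - (((2 * k - 1) ^ 2 + ((2 : ℕ) : ℤ)) * ((2 * k + 1) ^ 2 - ((2 : ℕ) : ℤ))) = 2 := by
      push_cast
      ring
    rw [e] at h4
    exact h4
  have hp2 : p = 2 := by
    have h4 : p ∣ 2 := by exact_mod_cast h3
    exact (Nat.prime_dvd_prime_iff_eq hp Nat.prime_two).1 h4
  subst hp2
  rw [hpz.dvd_mul] at h0
  push_cast at h0
  rcases h0 with h | h
  · have e : ((2 * k - 1) ^ 2 + 0 : ℤ) = 2 * (2 * k ^ 2 - 2 * k) + 1 := by ring
    omega
  · have e : ((2 * k + 1) ^ 2 - 0 : ℤ) = 2 * (2 * k ^ 2 + 2 * k) + 1 := by ring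
    omega

lemma adm_gap (k g : ℕ) (hg : Even g) : Admissible k {0, g} ∅ := by
  intro p hp
  by_contra hcon
  push Not at hcon
  have hpz : Prime (p : ℤ) := Nat.prime_iff_prime_int.1 hp
  have key : ∀ m : ℕ, (p : ℤ) ∣ ((2 * k - 1) ^ 2 + m) * ((2 * k - 1) ^ 2 + m + g) := by
    intro m
    have := hcon m
    unfold Hit at this
    simp only [mem_insert, mem_singleton, exists_eq_or_imp, exists_eq_left, Nat.cast_zero, add_zero, notMem_empty, false_and,
      exists_false, or_false] at this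
    rcases this with h | h
    · exact h.mul_right _
    · exact h.mul_left _
  have h0 := key 0
  have h1 := key 1
  have h2 := key 2
  have h3 : (p : ℤ) ∣ 2 := by
    have h4 := (h0.add h2).sub (h1.mul_left 2)
    have e : (((2 * k - 1) ^ 2 + ((0 : ℕ) : ℤ)) * ((2 * k - 1) ^ 2 + ((0 : ℕ) : ℤ) + g)) + (((2 * k - 1) ^ 2 + ((2 : ℕ) : ℤ)) * ((2 * k - 1) ^ 2 + ((2 : ℕ) : ℤ) + g))
        - 2 * (((2 * k - 1) ^ 2 + ((1 : ℕ) : ℤ)) * ((2 * k - 1) ^ 2 + ((1 : ℕ) : ℤ) + g)) = 2 := by
      push_cast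
      ring
    rw [e] at h4
    exact h4
  have hp2 : p = 2 := by
    have h4 : p ∣ 2 := by exact_mod_cast h3
    exact (Nat.prime_dvd_prime_iff_eq hp Nat.prime_two).1 h4
  subst hp2
  rw [hpz.dvd_mul] at h0
  push_cast at h0
  obtain ⟨u, hu⟩ := hg
  have hu' : (g : ℤ) = u + u := by exact_mod_cast hu
  rcases h0 with h | h
  · have e : ((2 * k - 1) ^ 2 + 0 : ℤ) = 2 * (2 * k ^ 2 - 2 * k) + 1 := by ring
    omega
  · have e : ((2 * k - 1) ^ 2 + 0 + g : ℤ) = 2 * (2 * k ^ 2 - 2 * k) + 1 + g := by ring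
    omega

theorem result :
    (∀ (t A : ℕ) (ε : ℝ), 0 < ε → ∃ w₀ : ℕ, ∀ w : ℕ, w₀ ≤ w → ∃ (r : ℕ) (δ : ℝ), 0 < δ ∧
      (∀ y K : ℕ, y ≤ K → (((range K).filter (fun k => ¬ defect k {0} {0} 0 w y ≤ δ)).card : ℝ) ≤ ε * K) ∧
      ∀ᶠ N : ℕ in atTop, ∀ k : ℕ, N ≤ 4 * k → k ≤ N ^ A → ∀ H H' : Finset ℕ, H.card + H'.card ≤ t → (∀ h ∈ H, h < 4 * k) →
        (∀ h ∈ H', h < 4 * k) → Admissible k H H' → ∀ y : ℕ, w ≤ y → y ^ r ≤ N →
        |((rough k H H' y N).card : ℝ) - N * V k H H' y| ≤ ε * (N * V k H H' y) ∧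
        (((range (N + 1)).filter (fun b => ¬ defect k H H' b w y ≤ δ)).card : ℝ) ≤ ε * (N + 1) ∧
        ∀ b : ℕ, b ≤ N → defect k H H' b w y ≤ δ →
          (∀ z : ℕ, w ≤ z → z ≤ y → ∀ g : ℕ → ℂ, (∀ n, ‖g n‖ ≤ 1) → (∀ m n : ℕ, m.Coprime n → g (m * n) = g m * g n) →
            ‖mean (rough k H H' y N) (fun m => g (m + b)) - mean (rough k H H' z N) (fun m => g (m + b))‖ ≤ ε) ∧
          ‖mean (rough k H H' y N) (fun m => (-1) ^ ArithmeticFunction.cardFactors (m + b))‖ ≤ ε) ∧
    (∀ k : ℕ, Admissible k {0} {0} ∧ ∀ g : ℕ, Even g → Admissible k {0, g} ∅) ∧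
    (∀ (j k y N : ℕ) (H H' : Finset ℕ), 1 ≤ k → N ≤ 4 * k → (∀ h ∈ H, h < 4 * k) → (∀ h ∈ H', h < 4 * k) →
      (2 * k + 1) ^ 2 < (y + 1) ^ j → ∀ m ∈ rough k H H' y N,
        (∀ h ∈ H, (2 * k - 1) ^ 2 < (2 * k - 1) ^ 2 + m + h ∧ (2 * k - 1) ^ 2 + m + h < (2 * k + 1) ^ 2 ∧
          ((2 * k - 1) ^ 2 + m + h).primeFactorsList.length < j) ∧
        ∀ h ∈ H', (2 * k - 1) ^ 2 < (2 * k + 1) ^ 2 - m - h ∧ (2 * k + 1) ^ 2 - m - h < (2 * k + 1) ^ 2 ∧
          ((2 * k + 1) ^ 2 - m - h).primeFactorsList.length < j) := by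
  classical
  refine ⟨?_, ?_, ?_⟩
  · intro t A ε hε
    obtain ⟨ε', hε'⟩ : ∃ e : ℝ, e = ε / (2 * ((t : ℝ) + 2)) := ⟨_, rfl⟩
    have ht0 : (0 : ℝ) ≤ t := by positivity
    have hε0 : 0 < ε' := by rw [hε']; positivity
    have hle : ε' ≤ ε := by
      rw [hε', div_le_iff₀ (by positivity)]
      nlinarith
    obtain ⟨w0, hw04, h⟩ := GP.multCor (t + 1) ((2 * A + 2) * t) (by omega) ε' hε0
    refine ⟨w0, fun w hw => ?_⟩
    obtain ⟨r, δ, hr, hδ, hwδ, hmain⟩ := h w hw
    have hw0 : (0 : ℝ) < w := by exact_mod_cast (by omega : 0 < w)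
    refine ⟨r, δ, hδ, ?_, ?_⟩
    · intro y K hK
      have h1 := GP.exc_card sys_pk K w y (by omega) hK δ hδ
      have e : ((range K).filter (fun k => ¬ defect k {0} {0} 0 w y ≤ δ)) = (range K).filter (fun k => ¬ GP.hb pk k w y ≤ δ) := by
        apply filter_congr
        intro k _
        rw [defect_zero]
      rw [e]
      refine h1.trans ?_
      apply mul_le_mul_of_nonneg_right _ (by positivity)
      push_cast
      have h2 : ε' * (2 * (t + 2)) = ε := by rw [hε']; field_simp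
      nlinarith
    · filter_upwards [hmain, eventually_ge_atTop 100] with N h1 hN k hNk hkN H H' hc hH hH' ha y hwy hyr
      have hyN : y ≤ N := by
        have : y ^ 1 ≤ y ^ r := Nat.pow_le_pow_right (by omega) hr
        rw [pow_one] at this
        exact this.trans hyr
      have hS1 : GP.Sys (pol k H H') (t + 1) := sys_pol k H H' (t + 1) (by omega) ha
      have hV := GP.V_pos hS1 y
      have hN0 : (0 : ℝ) < N := by exact_mod_cast (by omega : 0 < N)
      obtain ⟨k1, k2⟩ := h1 (pol k H H') hS1 (coeff_pol k H H' t A N hc hH hH' (by omega) hkN) y hwy hyr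
      refine ⟨?_, ?_, ?_⟩
      · rw [rough_eq, V_eq]
        exact k1.trans (mul_le_mul_of_nonneg_right hle (by positivity))
      · have h2 := GP.exc_card hS1 (N + 1) w y (by omega) (by omega) δ hδ
        simp only [defect_eq]
        refine h2.trans ?_
        push_cast
        apply mul_le_mul_of_nonneg_right _ (by positivity)
        have h3 : ε' * (2 * (t + 2)) = ε := by rw [hε']; field_simp
        nlinarith
      · intro b hb hd
        rw [defect_eq] at hd
        have hkz : (25 : ℤ) ≤ k := by exact_mod_cast (by omega : 25 ≤ k)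
        have hbz : (b : ℤ) ≤ 4 * k := by exact_mod_cast (by omega : b ≤ 4 * k)
        have hb0 : (0 : ℤ) ≤ b := by positivity
        have hne : (pol k H H').eval (-(b : ℤ)) ≠ 0 := by
          unfold pol
          rw [GP.PL_eval, prod_ne_zero_iff]
          intro i hi
          rcases i with h | h
          · have hh0 : (0 : ℤ) ≤ h := by positivity
            unfold cc
            simp only [Sum.elim_inl]
            nlinarith
          · have hh : h < 4 * k := hH' h (by simpa using hi)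
            have hh' : (h : ℤ) < 4 * k := by exact_mod_cast hh
            unfold cc
            simp only [Sum.elim_inr]
            nlinarith
        obtain ⟨k3, k4⟩ := k2 b hb hne hd
        refine ⟨fun z hz hzy g hg hm => ?_, ?_⟩
        · rw [rough_eq, rough_eq]
          exact (k3 z hz hzy g hg hm).trans hle
        · rw [rough_eq]
          exact k4.trans hle
  · intro k
    exact ⟨adm_pair k, adm_gap k⟩
  · intro j k y N H H' hk hN hH hH' hj m hm
    unfold rough at hm
    rw [mem_filter, mem_Icc] at hm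
    obtain ⟨⟨hm1, hmN⟩, hm2⟩ := hm
    obtain ⟨k', rfl⟩ : ∃ k', k = k' + 1 := ⟨k - 1, by omega⟩
    have e1 : 2 * (k' + 1) - 1 = 2 * k' + 1 := by omega
    have e2 : (2 * (k' + 1) + 1) ^ 2 = (2 * k' + 1) ^ 2 + 8 * (k' + 1) := by ring
    have key : ∀ n : ℕ, n ≠ 0 → n < (2 * (k' + 1) + 1) ^ 2 → (∀ p : ℕ, p.Prime → p ∣ n → y < p) → n.primeFactorsList.length < j := by
      intro n hn0 hn hnd
      have h1 : (y + 1) ^ n.primeFactorsList.length ≤ n := by
        conv_rhs => rw [← Nat.prod_primeFactorsList hn0]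
        apply List.pow_card_le_prod
        intro p hp
        exact hnd p (Nat.prime_of_mem_primeFactorsList hp) (Nat.dvd_of_mem_primeFactorsList hp)
      by_contra h
      push Not at h
      have h2 : (y + 1) ^ j ≤ n := le_trans (Nat.pow_le_pow_right (by omega) h) h1
      omega
    constructor
    · intro h hh
      have hh1 := hH h hh
      rw [e1]
      refine ⟨by omega, by omega, key _ (by positivity) (by omega) ?_⟩
      intro p hp hpd
      apply hm2 p hp
      left
      refine ⟨h, hh, ?_⟩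
      have h3 : (((2 * k' + 1) ^ 2 + m + h : ℕ) : ℤ) = (2 * ((k' + 1 : ℕ) : ℤ) - 1) ^ 2 + (m : ℤ) + h := by
        push_cast
        ring
      rw [← h3]
      exact_mod_cast hpd
    · intro h hh
      have hh1 := hH' h hh
      rw [e1]
      refine ⟨by omega, by omega, key _ (by omega) (by omega) ?_⟩
      intro p hp hpd
      apply hm2 p hp
      right
      refine ⟨h, hh, ?_⟩
      have h3 : (((2 * (k' + 1) + 1) ^ 2 - m - h : ℕ) : ℤ) = (2 * ((k' + 1 : ℕ) : ℤ) + 1) ^ 2 - (m : ℤ) - h := by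
        rw [Nat.cast_sub (by omega), Nat.cast_sub (by omega)]
        push_cast
        ring
      rw [← h3]
      exact_mod_cast hpd

end Pool.Agent.Results.MP_5f6ee5_nt.MultiplicativePositions
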