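import Pool.Agent.H14.MS.PShift

/-!
# `2 m` almost primes between consecutive odd squares, at the common differences of patterns in dense sets
-/

set_option autoImplicit false

namespace Pool.Agent.Results.MP_5f6ee5_nt.PatternDifferences

open Finset
open Pool.Agent.H14.MS Pool.Agent.H14.SK

/-- all prime factors of the integer `q` are larger than `y` and there are at most `r` of them, counted
with multiplicity -/
def AlmostPrime (y : ℝ) (r : ℕ) (q : ℤ) : Prop :=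
  (∀ p : ℕ, p.Prime → (p : ℤ) ∣ q → y < p) ∧ ArithmeticFunction.cardFactors q.natAbs ≤ r

/-- the `2 m` numbers `(2 k - 1) ^ 2 + t + j (2 m)!` and `(2 k + 1) ^ 2 - t - j (2 m)!`, `j < m`, are almost
primes, the first `m` in the left half and the others in the right half of the interval between the two
squares -/
def Good (y : ℝ) (r m k : ℕ) (t : ℤ) : Prop :=
  ∀ j : ℕ, j < m →
    ((2 * (k : ℤ) - 1) ^ 2 < (2 * (k : ℤ) - 1) ^ 2 + (t + j * (2 * m).factorial) ∧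
      (2 * (k : ℤ) - 1) ^ 2 + (t + j * (2 * m).factorial) ≤ (2 * (k : ℤ)) ^ 2 ∧
      AlmostPrime y r ((2 * (k : ℤ) - 1) ^ 2 + (t + j * (2 * m).factorial))) ∧
    ((2 * (k : ℤ)) ^ 2 < (2 * (k : ℤ) + 1) ^ 2 - (t + j * (2 * m).factorial) ∧
      (2 * (k : ℤ) + 1) ^ 2 - (t + j * (2 * m).factorial) < (2 * (k : ℤ) + 1) ^ 2 ∧
      AlmostPrime y r ((2 * (k : ℤ) + 1) ^ 2 - (t + j * (2 * m).factorial)))

/-- the sieve condition -/
def Bad (m : ℕ) (a b : ℤ) (p : ℕ) (n : ℤ) : Prop :=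
  ∃ j : ℕ, j < m ∧ ((p : ℤ) ∣ a + (n + j * (2 * m).factorial) ∨ (p : ℤ) ∣ b - (n + j * (2 * m).factorial))

lemma bad_per (m : ℕ) (a b : ℤ) :
    ∀ p : ℕ, ∀ n n' : ℤ, (p : ℤ) ∣ n - n' → (Bad m a b p n ↔ Bad m a b p n') := by
  intro p n n' h
  unfold Bad
  apply exists_congr
  intro j
  have e1 : (p : ℤ) ∣ a + (n + j * (2 * m).factorial) ↔ (p : ℤ) ∣ a + (n' + j * (2 * m).factorial) := by
    have e : a + (n + j * (2 * m).factorial) = (a + (n' + j * (2 * m).factorial)) + (n - n') := by ring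
    rw [e]
    exact dvd_add_left h
  have e2 : (p : ℤ) ∣ b - (n + j * (2 * m).factorial) ↔ (p : ℤ) ∣ b - (n' + j * (2 * m).factorial) := by
    have e : b - (n + j * (2 * m).factorial) = (b - (n' + j * (2 * m).factorial)) - (n - n') := by ring
    rw [e]
    exact dvd_sub_left h
  rw [e1, e2]

open Classical in
lemma res_sub (p : ℕ) (c : ℤ) :
    ((range p).filter (fun r : ℕ => (p : ℤ) ∣ c - (r : ℤ))).card ≤ 1 := by
  refine le_trans (card_le_card ?_) (one_res p (-c))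
  intro x hx
  rw [mem_filter] at hx ⊢
  refine ⟨hx.1, ?_⟩
  have := dvd_neg.2 hx.2
  have e : -(c - (x : ℤ)) = x + -c := by ring
  rwa [e] at this

open Classical in
lemma bad_rho (m : ℕ) (a b : ℤ) (p : ℕ) : rho (Bad m a b) p ≤ 2 * m := by
  have h1 : (range p).filter (fun r : ℕ => Bad m a b p r) ⊆
      (range m).biUnion (fun j => (range p).filter (fun r : ℕ => (p : ℤ) ∣ (r : ℤ) + (a + j * (2 * m).factorial)) ∪
        (range p).filter (fun r : ℕ => (p : ℤ) ∣ (b - j * (2 * m).factorial) - (r : ℤ))) := by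
    intro r hr
    obtain ⟨h2, j, hj, h3⟩ := mem_filter.1 hr
    rw [mem_biUnion]
    refine ⟨j, mem_range.2 hj, ?_⟩
    rw [mem_union, mem_filter, mem_filter]
    rcases h3 with h3 | h3
    · left
      refine ⟨h2, ?_⟩
      have e : a + ((r : ℤ) + j * (2 * m).factorial) = (r : ℤ) + (a + j * (2 * m).factorial) := by ring
      rwa [e] at h3
    · right
      refine ⟨h2, ?_⟩
      have e : b - ((r : ℤ) + j * (2 * m).factorial) = (b - j * (2 * m).factorial) - (r : ℤ) := by ring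
      rwa [e] at h3
  unfold rho
  refine (card_le_card h1).trans (card_biUnion_le.trans ?_)
  calc ∑ j ∈ range m, ((range p).filter (fun r : ℕ => (p : ℤ) ∣ (r : ℤ) + (a + j * (2 * m).factorial)) ∪
        (range p).filter (fun r : ℕ => (p : ℤ) ∣ (b - j * (2 * m).factorial) - (r : ℤ))).card
      ≤ ∑ _j ∈ range m, 2 := by
        apply sum_le_sum
        intro j _
        have q1 := one_res p (a + j * (2 * m).factorial)
        have q2 := res_sub p (b - j * (2 * m).factorial)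
        exact (card_union_le _ _).trans (by omega)
    _ = 2 * m := by simp [mul_comm]

open Classical in
lemma bad_rho_small (m : ℕ) (a b : ℤ) (p : ℕ) (hp : p.Prime) (hpm : p ≤ 2 * m) : rho (Bad m a b) p ≤ 2 := by
  have hd : (p : ℤ) ∣ ((2 * m).factorial : ℤ) := by
    exact_mod_cast (Nat.Prime.dvd_factorial hp).2 hpm
  have h1 : (range p).filter (fun r : ℕ => Bad m a b p r) ⊆
      (range p).filter (fun r : ℕ => (p : ℤ) ∣ (r : ℤ) + a) ∪
        (range p).filter (fun r : ℕ => (p : ℤ) ∣ b - (r : ℤ)) := by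
    intro r hr
    obtain ⟨h2, j, hj, h3⟩ := mem_filter.1 hr
    have hd' : (p : ℤ) ∣ (j : ℤ) * ((2 * m).factorial : ℤ) := hd.mul_left _
    rw [mem_union, mem_filter, mem_filter]
    rcases h3 with h3 | h3
    · left
      refine ⟨h2, ?_⟩
      have e : a + ((r : ℤ) + j * (2 * m).factorial) = ((r : ℤ) + a) + j * (2 * m).factorial := by ring
      rw [e] at h3
      exact (dvd_add_left hd').1 h3
    · right
      refine ⟨h2, ?_⟩
      have e : b - ((r : ℤ) + j * (2 * m).factorial) = (b - (r : ℤ)) - j * (2 * m).factorial := by ring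
      rw [e] at h3
      exact (dvd_sub_left hd').1 h3
  unfold rho
  refine (card_le_card h1).trans ((card_union_le _ _).trans ?_)
  have q1 := one_res p a
  have q2 := res_sub p b
  omega

open Classical in
lemma exists_of_rho (T : ℕ → ℤ → Prop) (p : ℕ) (h : rho T p < p) : ∃ n : ℤ, ¬ T p n := by
  by_contra hcon
  push Not at hcon
  have : rho T p = p := by
    unfold rho
    have h1 : (range p).filter (fun r : ℕ => T p r) = range p := filter_true_of_mem (fun x _ => hcon x)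
    rw [h1, card_range]
  omega

lemma bad_adm (m k u : ℕ) (p : ℕ) (hp : p.Prime) :
    ∃ n : ℤ, ¬ Bad m ((2 * (k : ℤ) - 1) ^ 2 + u) ((2 * (k : ℤ) + 1) ^ 2 - u) p n := by
  classical
  by_cases hpm : p ≤ 2 * m
  · by_cases hp2 : p = 2
    · subst hp2
      refine ⟨u, ?_⟩
      rintro ⟨j, hj, h⟩
      have hd : ((2 : ℕ) : ℤ) ∣ ((2 * m).factorial : ℤ) := by
        exact_mod_cast (Nat.Prime.dvd_factorial Nat.prime_two).2 hpm
      obtain ⟨c, hc⟩ := hd
      rw [hc] at h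
      push_cast at h
      rcases h with h | h
      · obtain ⟨e, he⟩ := h
        have h5 : (2 * (k : ℤ) - 1) ^ 2 = 2 * (2 * (k : ℤ) ^ 2 - 2 * k) + 1 := by ring
        rw [h5] at he
        have h6 : (1 : ℤ) = 2 * (e - (2 * (k : ℤ) ^ 2 - 2 * k) - u - j * c) := by linear_combination he
        omega
      · obtain ⟨e, he⟩ := h
        have h5 : (2 * (k : ℤ) + 1) ^ 2 = 2 * (2 * (k : ℤ) ^ 2 + 2 * k) + 1 := by ring
        rw [h5] at he
        have h6 : (1 : ℤ) = 2 * (e - (2 * (k : ℤ) ^ 2 + 2 * k) + u + j * c) := by linear_combination he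
        omega
    · apply exists_of_rho
      have h1 := bad_rho_small m ((2 * (k : ℤ) - 1) ^ 2 + u) ((2 * (k : ℤ) + 1) ^ 2 - u) p hp hpm
      have := hp.two_le
      omega
  · apply exists_of_rho
    have h1 := bad_rho m ((2 * (k : ℤ) - 1) ^ 2 + u) ((2 * (k : ℤ) + 1) ^ 2 - u) p
    omega

open Classical in
/-- **Almost primes between consecutive odd squares and patterns in dense sets.** -/
theorem result (m s : ℕ) (θ : ℝ) (hθ : 0 < θ) : ∃ (κ : ℝ) (r : ℕ), 0 < κ ∧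
    ∀ (D : ℕ) (v : Fin s → Fin D → ℤ) (δ : ℝ), 0 < δ → ∃ (H : ℕ) (c : ℝ), 0 < c ∧ ∃ k₀ : ℕ,
    ∀ k M u : ℕ, k₀ ≤ k → (k : ℝ) ^ θ ≤ M → 1 ≤ u → u + 3 * M ≤ 4 * k →
    ∃ h : ℕ, h ≤ H ∧ ∀ A ⊆ Fintype.piFinset (fun _ : Fin D => Icc (1 : ℤ) M), δ * (M : ℝ) ^ D ≤ A.card →
      c * (M : ℝ) ^ (D + 1) / Real.log M ^ (2 * m) ≤
        (((A ×ˢ Icc (1 : ℤ) M).filter (fun x => (∀ i, x.1 + x.2 • v i ∈ A) ∧
          Good ((k : ℝ) ^ κ) r m k (u + (x.2 + h)))).card : ℝ) := by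
  obtain ⟨κ, hκ, hS⟩ := patterns_shift (2 * m) s
  obtain ⟨B, hB⟩ : ∃ B : ℕ, 4 / θ ≤ B := exists_nat_ge _
  refine ⟨θ * κ, ⌈(B : ℝ) / κ⌉₊, by positivity, ?_⟩
  intro D v δ hδ
  obtain ⟨H, c, hc, N₁, hN₁⟩ := hS D v δ hδ
  obtain ⟨N₂, hN₂⟩ := Filter.eventually_atTop.1
    (((tendsto_rpow_atTop hθ).comp tendsto_natCast_atTop_atTop).eventually_ge_atTop
      ((max N₁ (H + m * (2 * m).factorial + 3) : ℕ) : ℝ))
  refine ⟨H, c, hc, max N₂ 3, ?_⟩
  intro k M u hk hM hu huM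
  have hk3 : 3 ≤ k := (le_max_right _ _).trans hk
  have hkr : (3 : ℝ) ≤ k := by exact_mod_cast hk3
  have hM1 : ((max N₁ (H + m * (2 * m).factorial + 3) : ℕ) : ℝ) ≤ M := (hN₂ k ((le_max_left _ _).trans hk)).trans hM
  have hM2 : max N₁ (H + m * (2 * m).factorial + 3) ≤ M := by exact_mod_cast hM1
  have hM3 : H + m * (2 * m).factorial + 3 ≤ M := (le_max_right _ _).trans hM2
  have hpow : (k : ℝ) ^ (4 : ℝ) ≤ (M : ℝ) ^ B := by
    calc (k : ℝ) ^ (4 : ℝ) = ((k : ℝ) ^ θ) ^ (4 / θ) := by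
          rw [← Real.rpow_mul (by positivity)]
          congr 1
          field_simp
      _ ≤ (M : ℝ) ^ (4 / θ) := Real.rpow_le_rpow (by positivity) hM (by positivity)
      _ ≤ (M : ℝ) ^ (B : ℝ) :=
          Real.rpow_le_rpow_of_exponent_le (by exact_mod_cast (by omega : 1 ≤ M)) hB
      _ = (M : ℝ) ^ B := Real.rpow_natCast _ _
  have hpow2 : k ^ 4 ≤ M ^ B := by
    have : (k : ℝ) ^ 4 ≤ (M : ℝ) ^ B := by
      have h4 : (k : ℝ) ^ (4 : ℝ) = (k : ℝ) ^ 4 := by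
        rw [← Real.rpow_natCast (k : ℝ) 4]
        norm_num
      rw [← h4]
      exact hpow
    exact_mod_cast this
  have hpow3 : (2 * k + 1) ^ 2 ≤ M ^ B := by
    refine le_trans ?_ hpow2
    have h1 : (2 * k + 1) ^ 2 ≤ (3 * k) ^ 2 := Nat.pow_le_pow_left (by omega) 2
    have h2 : k ^ 2 * 9 ≤ k ^ 2 * k ^ 2 := Nat.mul_le_mul_left _ (by nlinarith)
    calc (2 * k + 1) ^ 2 ≤ (3 * k) ^ 2 := h1
      _ = k ^ 2 * 9 := by ring
      _ ≤ k ^ 2 * k ^ 2 := h2
      _ = k ^ 4 := by ring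
  obtain ⟨h, h1, h2⟩ := hN₁ M ((le_max_left _ _).trans hM2)
    (Bad m ((2 * (k : ℤ) - 1) ^ 2 + u) ((2 * (k : ℤ) + 1) ^ 2 - u)) (bad_per _ _ _)
    (fun p _ => bad_rho _ _ _ p) (bad_adm m k u)
  refine ⟨h, h1, ?_⟩
  intro A hA hAδ
  refine (h2 A hA hAδ).trans ?_
  apply Nat.cast_le.2
  apply card_le_card
  intro x hx
  rw [mem_filter] at hx ⊢
  obtain ⟨hx1, hx2, hx3⟩ := hx
  refine ⟨hx1, hx2, ?_⟩
  have hx4 := mem_Icc.1 (mem_product.1 hx1).2
  have hκM : (k : ℝ) ^ (θ * κ) ≤ (M : ℝ) ^ κ := by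
    rw [Real.rpow_mul (by positivity)]
    exact Real.rpow_le_rpow (by positivity) hM hκ.le
  intro j hj
  obtain ⟨t, ht⟩ : ∃ t : ℤ, t = (u : ℤ) + (x.2 + h) + j * (2 * m).factorial := ⟨_, rfl⟩
  have htpos : 0 < t := by
    have : (0 : ℤ) ≤ (j : ℤ) * (2 * m).factorial := by positivity
    rw [ht]
    omega
  have htle : t < 4 * k := by
    have h3 : (j : ℤ) * (2 * m).factorial ≤ (m : ℤ) * (2 * m).factorial := by
      apply mul_le_mul_of_nonneg_right _ (by positivity)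
      omega
    have h4 : ((m * (2 * m).factorial : ℕ) : ℤ) = (m : ℤ) * (2 * m).factorial := by push_cast; ring
    rw [← h4] at h3
    rw [ht]
    omega
  rw [← ht]
  have hsq1 : (2 * (k : ℤ)) ^ 2 = (2 * (k : ℤ) - 1) ^ 2 + 4 * k - 1 := by ring
  have hsq2 : (2 * (k : ℤ) + 1) ^ 2 = (2 * (k : ℤ)) ^ 2 + 4 * k + 1 := by ring
  have hsq0 : (0 : ℤ) ≤ (2 * (k : ℤ) - 1) ^ 2 := by positivity
  have hval : ∀ q : ℤ, 0 < q → q ≤ (2 * (k : ℤ) + 1) ^ 2 →
      (∀ p : ℕ, p.Prime → (p : ℤ) ∣ q → (M : ℝ) ^ κ < p) →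
      AlmostPrime ((k : ℝ) ^ (θ * κ)) ⌈(B : ℝ) / κ⌉₊ q := by
    intro q hq1 hq2 hq3
    refine ⟨fun p hp hd => lt_of_le_of_lt hκM (hq3 p hp hd), ?_⟩
    have h5 : q.natAbs ≤ M ^ B := by
      refine le_trans ?_ hpow3
      have : (q.natAbs : ℤ) ≤ (((2 * k + 1) ^ 2 : ℕ) : ℤ) := by
        rw [Int.natAbs_of_nonneg hq1.le]
        push_cast
        exact hq2
      exact_mod_cast this
    have h6 := omega_le κ hκ M B q.natAbs (by omega) (by omega) h5
      (fun p hp hd => hq3 p hp (Int.natCast_dvd.2 hd))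
    exact Nat.cast_le.1 (h6.trans (Nat.le_ceil _))
  have hnb : ∀ p : ℕ, p.Prime → (p : ℝ) ≤ (M : ℝ) ^ κ →
      ¬ (p : ℤ) ∣ (2 * (k : ℤ) - 1) ^ 2 + t ∧ ¬ (p : ℤ) ∣ (2 * (k : ℤ) + 1) ^ 2 - t := by
    intro p hp hpM
    have h7 := hx3 p hp hpM
    constructor
    · intro h8
      apply h7
      refine ⟨j, hj, Or.inl ?_⟩
      have e : (2 * (k : ℤ) - 1) ^ 2 + u + (x.2 + h + j * (2 * m).factorial) = (2 * (k : ℤ) - 1) ^ 2 + t := by
        rw [ht]
        ring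
      rwa [e]
    · intro h8
      apply h7
      refine ⟨j, hj, Or.inr ?_⟩
      have e : (2 * (k : ℤ) + 1) ^ 2 - u - (x.2 + h + j * (2 * m).factorial) = (2 * (k : ℤ) + 1) ^ 2 - t := by
        rw [ht]
        ring
      rwa [e]
  refine ⟨⟨by omega, by omega, ?_⟩, ⟨?_, by omega, ?_⟩⟩
  · apply hval _ (by omega) (by omega)
    intro p hp hd
    by_contra hle
    exact (hnb p hp (not_lt.1 hle)).1 hd
  · omega
  · apply hval _ (by omega) (by omega)
    intro p hp hd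
    by_contra hle
    exact (hnb p hp (not_lt.1 hle)).2 hd

end Pool.Agent.Results.MP_5f6ee5_nt.PatternDifferences
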